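import Pool.Agent.Helper58.DH.Goals

/-!
# H_DEG: the signed number of solutions is zero
-/

set_option autoImplicit false

open Set
open scoped ContDiff

namespace Pool.Agent.Helper24.DH

open Pool.Agent.Helper58.DG Pool.Agent.Helper58.DH

theorem pc_cd (P Q M E c : ℝ) :
    ContDiff ℝ ∞ (fun z : ℝ × (Fin 6 → ℝ) ↦ PC P Q M E (1 + z.1 * c) z.2) := by
  unfold PC
  rw [contDiff_pi]
  intro i
  fin_cases i <;> simp <;> fun_prop

theorem h_deg (hD : D_DEG) (hE : H_EQN) (hB : H_BND) (hN : N_NON) : H_DEG := by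
  intro P Q M E Z hP hQ hM hPE hQE hs hZ hj
  obtain ⟨B₀, hB₀, hno⟩ := hN P Q M E hP hQ hM hPE hQE hs
  obtain ⟨δ, R, hδ, hb⟩ := hB P Q M E B₀ hP hQ hM hPE hQE hs hB₀
  have hB0 : 0 ≤ B₀ - 1 := sub_nonneg.2 hB₀
  have f0 : PC P Q M E (1 + 0 * (B₀ - 1)) = PC P Q M E 1 := by rw [zero_mul, add_zero]
  have f1 : PC P Q M E (1 + 1 * (B₀ - 1)) = PC P Q M E B₀ := by rw [one_mul, add_sub_cancel]
  have key := hD 6 (by norm_num) (fun s w ↦ PC P Q M E (1 + s * (B₀ - 1)) w) {w | ∀ i, 0 < w i}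
    (Icc (fun _ : Fin 6 ↦ δ) (fun _ ↦ R)) Z ∅ (pc_cd P Q M E (B₀ - 1)) ?_ isCompact_Icc ?_ ?_ ?_
    ?_ ?_ ?_
  · simp only [f0, Finset.sum_empty] at key
    exact key
  · simp only [ofPred_forall]
    exact isOpen_iInter_of_finite fun i ↦ isOpen_lt continuous_const (continuous_apply i)
  · intro w hw i
    exact lt_of_lt_of_le hδ (hw.1 i)
  · rintro s ⟨hs0, hs1⟩ w hw h
    have hS : SolC P Q M E (1 + s * (B₀ - 1)) w := ⟨hw, (hE.1 P Q M E _ w hw).1 h⟩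
    have hI : 1 + s * (B₀ - 1) ∈ Icc (1 : ℝ) B₀ := by
      have h1 := mul_nonneg hs0 hB0
      have h2 := mul_le_mul_of_nonneg_right hs1 hB0
      constructor <;> linarith
    exact ⟨fun i ↦ (hb _ hI w hS i).1, fun i ↦ (hb _ hI w hS i).2⟩
  · intro w
    rw [hZ w]
    show _ ↔ (∀ i, 0 < w i) ∧ PC P Q M E (1 + 0 * (B₀ - 1)) w = 0
    rw [f0]
    exact ⟨fun h ↦ ⟨h.1, (hE.1 P Q M E 1 w h.1).2 h.2⟩,
      fun h ↦ ⟨h.1, (hE.1 P Q M E 1 w h.1).1 h.2⟩⟩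
  · intro w
    show _ ↔ (∀ i, 0 < w i) ∧ PC P Q M E (1 + 1 * (B₀ - 1)) w = 0
    rw [f1]
    refine ⟨fun h ↦ absurd h (Finset.notMem_empty _), fun h ↦ ?_⟩
    exact absurd ⟨h.1, (hE.1 P Q M E B₀ w h.1).1 h.2⟩ (hno w)
  · intro w hw
    show jac (PC P Q M E (1 + 0 * (B₀ - 1))) w ≠ 0
    rw [f0]
    exact hj w hw
  · intro w hw
    exact absurd hw (Finset.notMem_empty _)

end Pool.Agent.Helper24.DH
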